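import Pool.Agent.Q7.CF.Stm

/-!
# Project CF of helper7: job FER

`S_FER`: the class group `A` of the twisted Fermat curve satisfies `p A = p² A` if every quotient curve `C_r` satisfies `TrivF`.
-/

set_option autoImplicit false

namespace Pool.Agent.Q7.CF.FERp

open Polynomial NumberField
open scoped nonZeroDivisors

section act

variable (p : ℕ) [Fact p.Prime] {L : Type} [Field L]

omit [Fact p.Prime] in
theorem hom_ext {S : Type} [CommRing S] (D : L) (g h : RF p D →+* S)
    (h1 : ∀ c : L, g (algebraMap L (RF p D) c) = h (algebraMap L (RF p D) c))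
    (hX : g (XF p D) = h (XF p D)) (hY : g (YF p D) = h (YF p D)) : g = h := by
  have key : g.comp (AdjoinRoot.mk (fF p D)) = h.comp (AdjoinRoot.mk (fF p D)) := by
    refine Polynomial.ringHom_ext' (Polynomial.ringHom_ext' (RingHom.ext fun c => ?_) ?_) ?_
    · exact h1 c
    · exact hX
    · exact hY
  refine RingHom.ext fun z => ?_
  obtain ⟨q, rfl⟩ := AdjoinRoot.mk_surjective z
  exact RingHom.congr_fun key q

omit [Fact p.Prime] in
/-- the automorphisms `X ↦ ζ^i X`, `Y ↦ ζ^j Y` exist -/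
theorem exists_act (D ζ : L) (hζ : ζ ^ p = 1) (i j : ℕ) : ∃ f : RF p D →+* RF p D, IsAct p D ζ i j f := by
  have hz : ∀ n : ℕ, algebraMap L (RF p D) (ζ ^ n) ^ p = 1 := by
    intro n
    rw [← map_pow, ← pow_mul, mul_comm, pow_mul, hζ, one_pow, map_one]
  let e : L[X] →+* RF p D := eval₂RingHom (algebraMap L (RF p D)) (algebraMap L (RF p D) (ζ ^ i) * XF p D)
  have he : (fF p D).eval₂ e (algebraMap L (RF p D) (ζ ^ j) * YF p D) = 0 := by
    rw [eval₂_fF, mul_pow, hz, one_mul, map_sub, map_pow]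
    have h1 : e (C D) = algebraMap L (RF p D) D := by
      change (C D).eval₂ _ _ = _
      rw [eval₂_C]
    have h2 : e X = algebraMap L (RF p D) (ζ ^ i) * XF p D := by
      change (X : L[X]).eval₂ _ _ = _
      rw [eval₂_X]
    rw [h1, h2, mul_pow, hz, one_mul, ← fermat_eq]
    ring
  refine ⟨AdjoinRoot.lift e _ he, ?_, ?_, ?_⟩
  · intro c
    have h1 : AdjoinRoot.lift e _ he (AdjoinRoot.of (fF p D) (C c)) = e (C c) := AdjoinRoot.lift_of he
    change AdjoinRoot.lift e _ he (AdjoinRoot.of (fF p D) (C c)) = _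
    rw [h1]
    change (C c).eval₂ _ _ = _
    rw [eval₂_C]
  · have h1 : AdjoinRoot.lift e _ he (AdjoinRoot.of (fF p D) X) = e X := AdjoinRoot.lift_of he
    change AdjoinRoot.lift e _ he (AdjoinRoot.of (fF p D) X) = _
    rw [h1]
    change (X : L[X]).eval₂ _ _ = _
    rw [eval₂_X]
  · exact AdjoinRoot.lift_root he

omit [Fact p.Prime] in
theorem act_comp (D ζ : L) (i j k l : ℕ) (f g : RF p D →+* RF p D) (hf : IsAct p D ζ i j f)
    (hg : IsAct p D ζ k l g) : IsAct p D ζ (i + k) (j + l) (f.comp g) := by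
  obtain ⟨f1, f2, f3⟩ := hf
  obtain ⟨g1, g2, g3⟩ := hg
  refine ⟨fun c => ?_, ?_, ?_⟩
  · rw [RingHom.comp_apply, g1, f1]
  · rw [RingHom.comp_apply, g2, map_mul, f1, f2, pow_add, map_mul]
    ring
  · rw [RingHom.comp_apply, g3, map_mul, f1, f3, pow_add, map_mul]
    ring

omit [Fact p.Prime] in
theorem act_unique (D ζ : L) (hζ : ζ ^ p = 1) (i j k l : ℕ) (hik : i ≡ k [MOD p]) (hjl : j ≡ l [MOD p])
    (f g : RF p D →+* RF p D) (hf : IsAct p D ζ i j f) (hg : IsAct p D ζ k l g) : f = g := by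
  have hz : ∀ m n : ℕ, m ≡ n [MOD p] → ζ ^ m = ζ ^ n := by
    intro m n h
    rw [← pow_mod_orderOf ζ m, ← pow_mod_orderOf ζ n]
    have h1 : m ≡ n [MOD orderOf ζ] := h.of_dvd (orderOf_dvd_of_pow_eq_one hζ)
    rw [h1]
  obtain ⟨f1, f2, f3⟩ := hf
  obtain ⟨g1, g2, g3⟩ := hg
  refine hom_ext p D f g (fun c => ?_) ?_ ?_
  · rw [f1, g1]
  · rw [f2, g2, hz i k hik]
  · rw [f3, g3, hz j l hjl]

omit [Fact p.Prime] in
theorem act_id (D ζ : L) : IsAct p D ζ 0 0 (RingHom.id (RF p D)) :=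
  ⟨fun _ => rfl, by rw [RingHom.id_apply, pow_zero, map_one, one_mul],
    by rw [RingHom.id_apply, pow_zero, map_one, one_mul]⟩

end act

/-- the counting identity -/
theorem prod_id {G : Type*} [CommMonoid G] (p : ℕ) [Fact p.Prime] (c : ZMod p → ZMod p → G) :
    (∏ r : ZMod p, ∏ j : ZMod p, c (-r * j) j) * ∏ i : ZMod p, c i 0 = c 0 0 ^ p * ∏ i : ZMod p, ∏ j : ZMod p, c i j := by
  have h1 : (∏ r : ZMod p, ∏ j : ZMod p, c (-r * j) j) =
      c 0 0 ^ p * ∏ j ∈ (Finset.univ : Finset (ZMod p)).erase 0, ∏ i : ZMod p, c i j := by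
    rw [Finset.prod_comm, ← Finset.mul_prod_erase _ _ (Finset.mem_univ (0 : ZMod p))]
    congr 1
    · simp only [mul_zero, Finset.prod_const, Finset.card_univ, ZMod.card]
    · refine Finset.prod_congr rfl fun j hj => ?_
      have hj0 : j ≠ 0 := (Finset.mem_erase.1 hj).1
      refine Finset.prod_bijective (fun r : ZMod p => -r * j) ?_ (fun _ => by simp) (fun _ _ => rfl)
      refine (Finite.injective_iff_bijective).1 ?_
      intro a b hab
      have h2 : -a * j = -b * j := hab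
      exact neg_injective (mul_right_cancel₀ hj0 h2)
  rw [h1, mul_assoc]
  congr 1
  rw [Finset.prod_comm (s := (Finset.univ : Finset (ZMod p))) (t := (Finset.univ : Finset (ZMod p))),
    ← Finset.mul_prod_erase _ (fun j => ∏ i : ZMod p, c i j) (Finset.mem_univ (0 : ZMod p)), mul_comm]

/-- products over `ZMod p` -/
theorem prod_range {G : Type*} [CommMonoid G] (p : ℕ) [Fact p.Prime] (g : ZMod p → G) :
    ∏ j : ZMod p, g j = ∏ j ∈ Finset.range p, g (j : ZMod p) := by
  refine Finset.prod_bij' (fun j _ => j.val) (fun j _ => (j : ZMod p)) ?_ ?_ ?_ ?_ ?_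
  · intro a _
    exact Finset.mem_range.2 (ZMod.val_lt a)
  · intro a _
    exact Finset.mem_univ _
  · intro a _
    exact ZMod.natCast_zmod_val a
  · intro a ha
    exact ZMod.val_cast_of_lt (Finset.mem_range.1 ha)
  · intro a _
    rw [ZMod.natCast_zmod_val]

/-- `t1` generates the ideal `(X)` -/
theorem t1_map (hN : S_NMM) (p r : ℕ) [Fact p.Prime] [Ok p r] (L : Type) [Field L] [CharZero L] (D : L) (hD : D ≠ 0)
    [IsDedekindDomain (RF p D)] (hX : XF p D ≠ 0) :
    (t1 p r D).map ((BQ p r D).val : BQ p r D →+* RF p D) = Ideal.span {XF p D} := by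
  have hp : p ≠ 0 := (Fact.out (p := p.Prime)).ne_zero
  obtain ⟨-, -, -, -, -, -, -, -, -, -, -, -, h1, -, -⟩ := hN p r L D hD
  have h2 : (t1 p r D).map ((BQ p r D).val : BQ p r D →+* RF p D) ≤ Ideal.span {XF p D} := Ideal.map_comap_le
  obtain ⟨K, hK⟩ := Ideal.dvd_iff_le.2 h2
  have h3 : ((t1 p r D).map ((BQ p r D).val : BQ p r D →+* RF p D)) ^ p = Ideal.span {XF p D} ^ p := by
    rw [← Ideal.map_pow, h1, Ideal.map_span, Set.image_singleton, Ideal.span_singleton_pow]
    rfl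
  have h4 : Ideal.span {XF p D} ^ p * K ^ p = Ideal.span {XF p D} ^ p * 1 := by
    rw [← mul_pow, ← hK, h3, mul_one]
  have h5 : Ideal.span {XF p D} ^ p ≠ 0 := pow_ne_zero _ (by
    rw [Ne, Ideal.zero_eq_bot, Ideal.span_singleton_eq_bot]
    exact hX)
  have h6 : K ^ p = 1 := mul_left_cancel₀ h5 h4
  have h7 : K = ⊤ := by
    rw [eq_top_iff, ← Ideal.one_eq_top, ← h6]
    exact Ideal.pow_le_self hp
  rw [hK, h7, Ideal.mul_top]

theorem XF_ne (p : ℕ) [Fact p.Prime] {L : Type} [Field L] (D : L) : XF p D ≠ 0 := by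
  unfold XF
  intro h
  have h1 : (X : L[X]) = 0 := by
    have hinj : Function.Injective (AdjoinRoot.of (fF p D)) :=
      AdjoinRoot.of.injective_of_degree_ne_zero (by
        rw [degree_eq_natDegree (fF_monic p D).ne_zero, fF_natDegree]
        exact_mod_cast (Fact.out (p := p.Prime)).ne_zero)
    exact hinj (h.trans (map_zero _).symm)
  exact X_ne_zero h1

/-- **Job FER** (without `S_BSC`). -/
theorem fer0 : S_DED → S_NMM → S_FNR → S_FER := by
  intro hDED hN hF p _ hp2 F _ _ ζ hζ D hD hT I hI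
  have hp : p.Prime := Fact.out
  have hok1 : Ok p 1 := ⟨le_rfl, by
    have := hp.two_le
    omega⟩
  obtain ⟨-, -, hR, -⟩ := hDED p 1 F D hD
  have hX : XF p D ≠ 0 := XF_ne p D
  have hζp : ζ ^ p = 1 := hζ.pow_eq_one
  choose f hf using fun i j : ℕ => exists_act p D ζ hζp i j
  -- the maps are injective
  have hinj : ∀ i j : ℕ, Function.Injective (f i j) := by
    intro i j
    have h1 : (f ((p - 1) * i) ((p - 1) * j)).comp (f i j) = RingHom.id (RF p D) := by
      refine act_unique p D ζ hζp _ _ 0 0 ?_ ?_ _ _ (act_comp p D ζ _ _ _ _ _ _ (hf _ _) (hf i j)) (act_id p D ζ)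
      · have : (p - 1) * i + i = p * i := by
          obtain ⟨q, hq⟩ : ∃ q, p = q + 1 := ⟨p - 1, by have := hp.two_le; omega⟩
          rw [hq, Nat.add_sub_cancel]
          ring
        rw [this]
        exact (Nat.modEq_zero_iff_dvd).2 (dvd_mul_right p i)
      · have : (p - 1) * j + j = p * j := by
          obtain ⟨q, hq⟩ : ∃ q, p = q + 1 := ⟨p - 1, by have := hp.two_le; omega⟩
          rw [hq, Nat.add_sub_cancel]
          ring
        rw [this]
        exact (Nat.modEq_zero_iff_dvd).2 (dvd_mul_right p j)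
    intro a b hab
    have h2 := RingHom.congr_fun h1 a
    have h3 := RingHom.congr_fun h1 b
    rw [RingHom.comp_apply, RingHom.id_apply] at h2 h3
    rw [← h2, ← h3, hab]
  have hne : ∀ i j : ℕ, I.map (f i j) ≠ ⊥ := by
    intro i j h
    exact hI ((Ideal.map_eq_bot_iff_of_injective (hinj i j)).1 h)
  let J : ℕ → ℕ → (Ideal (RF p D))⁰ := fun i j => ⟨I.map (f i j), mem_nonZeroDivisors_of_ne_zero (hne i j)⟩
  let c : ℕ → ℕ → ClassGroup (RF p D) := fun i j => ClassGroup.mk0 (J i j)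
  have hc : ∀ i j k l : ℕ, i ≡ k [MOD p] → j ≡ l [MOD p] → c i j = c k l := by
    intro i j k l h1 h2
    have h3 : f i j = f k l := act_unique p D ζ hζp i j k l h1 h2 _ _ (hf i j) (hf k l)
    have h4 : J i j = J k l := Subtype.ext (by
      change I.map (f i j) = I.map (f k l)
      rw [h3])
    change ClassGroup.mk0 (J i j) = ClassGroup.mk0 (J k l)
    rw [h4]
  -- principal products
  have hprinc : ∀ (g : ℕ → ℕ × ℕ) (b : RF p D), b ≠ 0 →
      ∏ j ∈ Finset.range p, I.map (f (g j).1 (g j).2) = Ideal.span {b} →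
      ∏ j ∈ Finset.range p, c (g j).1 (g j).2 = 1 := by
    intro g b hb h
    have h1 : ∏ j ∈ Finset.range p, c (g j).1 (g j).2 = ClassGroup.mk0 (∏ j ∈ Finset.range p, J (g j).1 (g j).2) :=
      (map_prod (ClassGroup.mk0 : (Ideal (RF p D))⁰ →* ClassGroup (RF p D)) _ _).symm
    have h2 : ((∏ j ∈ Finset.range p, J (g j).1 (g j).2 : (Ideal (RF p D))⁰) : Ideal (RF p D)) = Ideal.span {b} := by
      rw [Submonoid.coe_finsetProd]
      exact h
    rw [h1]
    have h3 : (∏ j ∈ Finset.range p, J (g j).1 (g j).2 : (Ideal (RF p D))⁰) =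
        ⟨Ideal.span {b}, mem_nonZeroDivisors_of_ne_zero (by
          rw [Ne, Ideal.zero_eq_bot, Ideal.span_singleton_eq_bot]
          exact hb)⟩ := Subtype.ext h2
    rw [h3, ClassGroup.mk0_eq_one_iff]
    exact ⟨⟨b, rfl⟩⟩
  obtain ⟨n1, ⟨b2, hb2, n2⟩, ⟨b3, hb3, n3⟩, ⟨b4, hb4, n4⟩⟩ := hF p hp2 F ζ hζ D hD f hf I hI
  have e2 : ∏ j ∈ Finset.range p, c 0 j = 1 := hprinc (fun j => (0, j)) b2 hb2 n2
  have e3 : ∏ j ∈ Finset.range p, c j 0 = 1 := hprinc (fun j => (j, 0)) b3 hb3 n3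
  have e4 : ∏ j ∈ Finset.range p, c j j = 1 := hprinc (fun j => (j, j)) b4 hb4 n4
  have e5 : ∀ i : ℕ, ∏ j ∈ Finset.range p, c i j = 1 := by
    intro i
    refine hprinc (fun j => (i, j)) (f i 0 b2) ?_ ?_
    · intro h
      exact hb2 (hinj i 0 (h.trans (map_zero _).symm))
    · have h1 := congrArg (Ideal.mapHom (f i 0)) n2
      rw [map_prod] at h1
      change (∏ j ∈ Finset.range p, (I.map (f 0 j)).map (f i 0)) = (Ideal.span {b2}).map (f i 0) at h1
      rw [Ideal.map_span, Set.image_singleton] at h1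
      rw [← h1]
      refine Finset.prod_congr rfl fun j _ => ?_
      change I.map (f i j) = _
      rw [Ideal.map_map]
      have h2 : (f i 0).comp (f 0 j) = f i j :=
        act_unique p D ζ hζp _ _ i j (by rw [add_zero]) (by rw [zero_add]) _ _
          (act_comp p D ζ _ _ _ _ _ _ (hf i 0) (hf 0 j)) (hf i j)
      rw [h2]
  -- the subgroup `M`
  let gen : Set (ClassGroup (RF p D)) := {x | ∃ (r : ℕ) (_ : Ok p r) (I₀ : Ideal (BQ p r D))
    (h : I₀.map ((BQ p r D).val : BQ p r D →+* RF p D) ∈ (Ideal (RF p D))⁰),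
    x = ClassGroup.mk0 ⟨I₀.map ((BQ p r D).val : BQ p r D →+* RF p D), h⟩}
  let M : Subgroup (ClassGroup (RF p D)) := Subgroup.closure gen
  have hmapne : ∀ (r : ℕ) (I₀ : Ideal (BQ p r D)), I₀ ≠ ⊥ →
      I₀.map ((BQ p r D).val : BQ p r D →+* RF p D) ∈ (Ideal (RF p D))⁰ := by
    intro r I₀ h
    refine mem_nonZeroDivisors_of_ne_zero fun h1 => h ?_
    exact (Ideal.map_eq_bot_iff_of_injective (f := ((BQ p r D).val : BQ p r D →+* RF p D))
      Subtype.val_injective).1 h1
  have hMp : ∀ m ∈ M, ∃ m' ∈ M, m = m' ^ p := by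
    intro m hm
    induction hm using Subgroup.closure_induction with
    | mem x hx =>
      obtain ⟨r, hr, I₀, h, rfl⟩ := hx
      have hI₀ : I₀ ≠ ⊥ := by
        rintro rfl
        rw [Ideal.map_bot] at h
        exact nonZeroDivisors.ne_zero h rfl
      obtain ⟨i, J₀, hJ₀, a, b, ha, hb, hs⟩ := hT r hr I₀ hI₀
      refine ⟨ClassGroup.mk0 ⟨J₀.map ((BQ p r D).val : BQ p r D →+* RF p D), hmapne r J₀ hJ₀⟩,
        Subgroup.subset_closure ⟨r, hr, J₀, hmapne r J₀ hJ₀, rfl⟩, ?_⟩
      rw [← map_pow, ClassGroup.mk0_eq_mk0_iff]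
      refine ⟨(a : RF p D), (b : RF p D) * XF p D ^ i, ?_, ?_, ?_⟩
      · intro h1
        exact ha (Subtype.ext h1)
      · refine mul_ne_zero ?_ (pow_ne_zero _ hX)
        intro h1
        exact hb (Subtype.ext h1)
      · have h1 := congrArg (Ideal.map ((BQ p r D).val : BQ p r D →+* RF p D)) hs
        rw [Ideal.map_mul, Ideal.map_mul, Ideal.map_mul, Ideal.map_pow, Ideal.map_pow, Ideal.map_span,
          Ideal.map_span, Set.image_singleton, Set.image_singleton, t1_map hN p r F D hD hX,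
          Ideal.span_singleton_pow, ← mul_assoc, Ideal.span_singleton_mul_span_singleton] at h1
        exact h1
    | one => exact ⟨1, M.one_mem, (one_pow p).symm⟩
    | mul x y _ _ hx hy =>
      obtain ⟨x', hx', rfl⟩ := hx
      obtain ⟨y', hy', rfl⟩ := hy
      exact ⟨x' * y', M.mul_mem hx' hy', (mul_pow x' y' p).symm⟩
    | inv x _ hx =>
      obtain ⟨x', hx', rfl⟩ := hx
      exact ⟨x'⁻¹, M.inv_mem hx', by rw [inv_pow]⟩
  -- the identity
  have key := prod_id p (fun a b : ZMod p => c a.val b.val)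
  rw [ZMod.val_zero] at key
  have k1 : ∏ i : ZMod p, c i.val 0 = 1 := by
    rw [← e3, prod_range p (fun i => c i.val 0)]
    refine Finset.prod_congr rfl fun i hi => ?_
    rw [ZMod.val_cast_of_lt (Finset.mem_range.1 hi)]
  have k2 : ∏ i : ZMod p, ∏ j : ZMod p, c i.val j.val = 1 := by
    refine Finset.prod_eq_one fun i _ => ?_
    rw [← e5 i.val, prod_range p (fun j => c i.val j.val)]
    refine Finset.prod_congr rfl fun j hj => ?_
    rw [ZMod.val_cast_of_lt (Finset.mem_range.1 hj)]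
  rw [k1, k2, mul_one, mul_one] at key
  have k3 : ∀ r : ℕ, r < p → ∏ j : ZMod p, c (-(r : ZMod p) * j).val j.val =
      ∏ j ∈ Finset.range p, c ((p - r) * j) j := by
    intro r hr
    rw [prod_range p (fun j => c (-(r : ZMod p) * j).val j.val)]
    refine Finset.prod_congr rfl fun j hj => ?_
    refine hc _ _ _ _ ?_ ?_
    · rw [← ZMod.natCast_eq_natCast_iff, ZMod.natCast_zmod_val, Nat.cast_mul, Nat.cast_sub hr.le,
        ZMod.natCast_self, zero_sub]
    · rw [ZMod.val_cast_of_lt (Finset.mem_range.1 hj)]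
  have hmem : c 0 0 ^ p ∈ M := by
    rw [← key]
    refine Subgroup.prod_mem _ fun r _ => ?_
    have h1 := k3 r.val (ZMod.val_lt r)
    rw [ZMod.natCast_zmod_val] at h1
    rw [h1]
    by_cases hr0 : r.val = 0
    · rw [hr0, Nat.sub_zero]
      have h2 : ∏ j ∈ Finset.range p, c (p * j) j = 1 := by
        rw [← e2]
        refine Finset.prod_congr rfl fun j _ => hc _ _ _ _ ?_ rfl
        exact (Nat.modEq_zero_iff_dvd).2 (dvd_mul_right p j)
      rw [h2]
      exact M.one_mem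
    · by_cases hr1 : r.val + 1 = p
      · have h2 : p - r.val = 1 := by omega
        rw [h2]
        simp only [one_mul]
        rw [e4]
        exact M.one_mem
      · have hok : Ok p r.val := ⟨by omega, by
          have := ZMod.val_lt r
          omega⟩
        obtain ⟨I₀, hI₀, h2⟩ := n1 r.val hok
        refine Subgroup.subset_closure ⟨r.val, hok, I₀, hmapne _ I₀ hI₀, ?_⟩
        have h3 : ∏ j ∈ Finset.range p, c ((p - r.val) * j) j =
            ClassGroup.mk0 (∏ j ∈ Finset.range p, J ((p - r.val) * j) j) :=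
          (map_prod (ClassGroup.mk0 : (Ideal (RF p D))⁰ →* ClassGroup (RF p D)) _ _).symm
        rw [h3]
        congr 1
        refine Subtype.ext ?_
        rw [Submonoid.coe_finsetProd]
        exact h2
  have hc00 : c 0 0 = ClassGroup.mk0 ⟨I, mem_nonZeroDivisors_of_ne_zero hI⟩ := by
    have h1 : f 0 0 = RingHom.id (RF p D) :=
      act_unique p D ζ hζp 0 0 0 0 rfl rfl _ _ (hf 0 0) (act_id p D ζ)
    change ClassGroup.mk0 (J 0 0) = _
    congr 1
    refine Subtype.ext ?_
    change I.map (f 0 0) = I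
    rw [h1, Ideal.map_id]
  obtain ⟨m, hm, h1⟩ := hMp _ hmem
  obtain ⟨m', -, rfl⟩ := hMp m hm
  obtain ⟨⟨J', hJ'⟩, rfl⟩ := ClassGroup.mk0_surjective m'
  refine ⟨J', nonZeroDivisors.ne_zero hJ', ?_⟩
  rw [hc00, ← pow_mul, ← map_pow, ← map_pow, ClassGroup.mk0_eq_mk0_iff] at h1
  obtain ⟨x, y, hx, hy, h⟩ := h1
  refine ⟨x, y, hx, hy, ?_⟩
  rw [pow_two]
  exact h

/-- **Job FER.** -/
theorem fer : S_BSC → S_DED → S_NMM → S_FNR → S_FER := fun _ => fer0

end Pool.Agent.Q7.CF.FERp
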