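import Pool.Agent.Q7.CF.Stm3
import Pool.Agent.Q285.CF.FER

/-!
# Project CF of helper7: job FUN (adapted from the CJ proof of helper154)
-/

set_option autoImplicit false

namespace Pool.Agent.Q285.CFFUN

open Polynomial NumberField IsDedekindDomain Pool.Agent.Q7.CF
open Pool.Agent.Q7.CF.FERp (hom_ext)

theorem sF_alg (p : ℕ) {L : Type} [Field L] (D ζ : L) (h : ζ ^ p = 1) (a : L) :
    sF p D ζ h (algebraMap L (RF p D) a) = algebraMap L (RF p D) a := sF_of p D ζ h (C a)

theorem bF_id (p : ℕ) {L : Type} [Field L] (f : L →+* L) (hf : ∀ x, f x = x) (D : L)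
    (h : f D = D) : bF p f D D h = RingHom.id _ := by
  refine hom_ext p _ _ _ (fun a => ?_) ?_ ?_
  · rw [bF_alg, hf]
    rfl
  · rw [bF_XF]
    rfl
  · rw [bF_YF]
    rfl

theorem bF_comp (p : ℕ) {L M N : Type} [Field L] [Field M] [Field N] (f : L →+* M) (g : M →+* N)
    (k : L →+* N) (hk : ∀ x, k x = g (f x)) (D : L) (D' : M) (D'' : N) (h : f D = D')
    (h' : g D' = D'') (h'' : k D = D'') :
    (bF p g D' D'' h').comp (bF p f D D' h) = bF p k D D'' h'' := by
  refine hom_ext p _ _ _ (fun a => ?_) ?_ ?_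
  · rw [RingHom.comp_apply, bF_alg, bF_alg, bF_alg, hk]
  · rw [RingHom.comp_apply, bF_XF, bF_XF, bF_XF]
  · rw [RingHom.comp_apply, bF_YF, bF_YF, bF_YF]

theorem bF_sF (p : ℕ) {L M : Type} [Field L] [Field M] (f : L →+* M) (D : L) (D' : M)
    (h : f D = D') (z : L) (z' : M) (hf : f z = z') (hz : z ^ p = 1) (hz' : z' ^ p = 1) (x : RF p D) :
    bF p f D D' h (sF p D z hz x) = sF p D' z' hz' (bF p f D D' h x) := by
  have h1 : (bF p f D D' h).comp (sF p D z hz : RF p D →+* RF p D) =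
      ((sF p D' z' hz' : RF p D' →+* RF p D')).comp (bF p f D D' h) := by
    refine hom_ext p _ _ _ (fun a => ?_) ?_ ?_
    · change bF p f D D' h (sF p D z hz (algebraMap L (RF p D) a)) =
        sF p D' z' hz' (bF p f D D' h (algebraMap L (RF p D) a))
      rw [sF_alg, bF_alg, sF_alg]
    · change bF p f D D' h (sF p D z hz (XF p D)) = sF p D' z' hz' (bF p f D D' h (XF p D))
      rw [sF_XF, bF_XF, sF_XF]
    · change bF p f D D' h (sF p D z hz (YF p D)) = sF p D' z' hz' (bF p f D D' h (YF p D))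
      rw [sF_YF, bF_YF, sF_YF, map_mul, bF_YF, bF_alg, hf]
  exact RingHom.congr_fun h1 x

theorem sF_sF (p : ℕ) {L : Type} [Field L] (D ζ ξ : L) (h : ζ ^ p = 1) (h' : ξ ^ p = 1) (he : ξ * ζ = 1) (x : RF p D) :
    sF p D ζ h (sF p D ξ h' x) = x := by
  have h1 : ((sF p D ζ h : RF p D →+* RF p D)).comp (sF p D ξ h' : RF p D →+* RF p D) = RingHom.id _ := by
    refine hom_ext p _ _ _ (fun a => ?_) ?_ ?_
    · change sF p D ζ h (sF p D ξ h' (algebraMap L (RF p D) a)) = algebraMap L (RF p D) a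
      rw [sF_alg, sF_alg]
    · change sF p D ζ h (sF p D ξ h' (XF p D)) = XF p D
      rw [sF_XF, sF_XF]
    · change sF p D ζ h (sF p D ξ h' (YF p D)) = YF p D
      rw [sF_YF, map_mul, sF_YF, sF_alg, ← mul_assoc, ← map_mul, he, map_one, one_mul]
  exact RingHom.congr_fun h1 x

variable (p r : ℕ)

theorem bc_id {L : Type} [Field L] (f : L →+* L) (hf : ∀ x, f x = x) (D : L)
    (h : f D = D) : bc p r f D D h = RingHom.id _ := by
  refine RingHom.ext fun z => Subtype.ext ?_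
  rw [bc_val, bF_id p f hf D h]
  rfl

theorem bc_comp {L M N : Type} [Field L] [Field M] [Field N] (f : L →+* M) (g : M →+* N)
    (k : L →+* N) (hk : ∀ x, k x = g (f x)) (D : L) (D' : M) (D'' : N) (h : f D = D')
    (h' : g D' = D'') (h'' : k D = D'') :
    (bc p r g D' D'' h').comp (bc p r f D D' h) = bc p r k D D'' h'' := by
  refine RingHom.ext fun z => Subtype.ext ?_
  rw [RingHom.comp_apply, bc_val, bc_val, bc_val, ← bF_comp p f g k hk D D' D'' h h' h'']
  rfl

theorem bc_sg {L M : Type} [Field L] [Field M] (f : L →+* M) (D : L) (D' : M)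
    (h : f D = D') (z : L) (z' : M) (hf : f z = z') (hz : z ^ p = 1) (hz' : z' ^ p = 1)
    (I : Ideal (BQ p r D)) :
    (I.map (sg p r D z hz)).map (bc p r f D D' h) = (I.map (bc p r f D D' h)).map (sg p r D' z' hz') := by
  rw [Ideal.map_map, Ideal.map_map]
  congr 1
  refine RingHom.ext fun x => Subtype.ext ?_
  rw [RingHom.comp_apply, RingHom.comp_apply, bc_val, sg_val, sg_val, bc_val]
  exact bF_sF p f D D' h z z' hf hz hz' x

theorem bc_mon {L M : Type} [Field L] [Field M] (f : L →+* M) (D : L) (D' : M) (h : f D = D') (a b : ℕ)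
    (hab : b ≡ r * a [MOD p]) :
    bc p r f D D' h ⟨XF p D ^ a * YF p D ^ b, mons_mem p r D hab⟩ =
      ⟨XF p D' ^ a * YF p D' ^ b, mons_mem p r D' hab⟩ := by
  refine Subtype.ext ?_
  rw [bc_val]
  change bF p f D D' h (XF p D ^ a * YF p D ^ b) = XF p D' ^ a * YF p D' ^ b
  rw [map_mul, map_pow, map_pow, bF_XF, bF_YF]

theorem mon_mem_t1 {L : Type} [Field L] (D : L) (a b : ℕ) (hab : b ≡ r * a [MOD p]) (ha : a ≠ 0) :
    (⟨XF p D ^ a * YF p D ^ b, mons_mem p r D hab⟩ : BQ p r D) ∈ t1 p r D := by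
  unfold t1
  rw [Ideal.mem_comap, Ideal.mem_span_singleton]
  change XF p D ∣ XF p D ^ a * YF p D ^ b
  exact (dvd_pow_self (XF p D) ha).mul_right _

/-- `X` is not a unit -/
theorem one_notMem [Fact p.Prime] {L : Type} [Field L] (D : L) : (1 : RF p D) ∉ Ideal.span {XF p D} := by
  have hp := (Fact.out (p := p.Prime)).ne_zero
  intro h
  rw [Ideal.mem_span_singleton] at h
  obtain ⟨w, hw⟩ := h
  have hdeg : (X ^ p - C D : L[X]).degree ≠ 0 := by
    rw [degree_X_pow_sub_C (Nat.pos_of_ne_zero hp)]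
    exact_mod_cast hp
  have : Nontrivial (AdjoinRoot (X ^ p - C D : L[X])) := AdjoinRoot.nontrivial _ hdeg
  let i : L[X] →+* AdjoinRoot (X ^ p - C D : L[X]) := (AdjoinRoot.of (X ^ p - C D : L[X])).comp (evalRingHom 0)
  have he : (fF p D).eval₂ i (AdjoinRoot.root (X ^ p - C D : L[X])) = 0 := by
    rw [eval₂_fF]
    have h1 : AdjoinRoot.mk (X ^ p - C D : L[X]) (X ^ p - C D) = 0 := AdjoinRoot.mk_self
    rw [map_sub, map_pow, AdjoinRoot.mk_X, AdjoinRoot.mk_C] at h1
    have h2 : i (C D - X ^ p) = AdjoinRoot.of (X ^ p - C D : L[X]) D := by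
      change AdjoinRoot.of (X ^ p - C D : L[X]) ((C D - X ^ p).eval 0) = _
      rw [eval_sub, eval_C, eval_pow, eval_X, zero_pow hp, sub_zero]
    rw [h2]
    exact h1
  have hX : AdjoinRoot.lift i _ he (XF p D) = 0 := by
    have h1 : AdjoinRoot.lift i _ he (AdjoinRoot.of (fF p D) X) = i X := AdjoinRoot.lift_of he
    refine h1.trans ?_
    change AdjoinRoot.of (X ^ p - C D : L[X]) ((X : L[X]).eval 0) = 0
    rw [eval_X, map_zero]
  have h3 := congrArg (AdjoinRoot.lift i _ he) hw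
  rw [map_one, map_mul, hX, zero_mul] at h3
  exact one_ne_zero h3

theorem const_mem_t1 [Fact p.Prime] {L : Type} [Field L] (D c : L) (h : algebraMap L (BQ p r D) c ∈ t1 p r D) : c = 0 := by
  by_contra hc
  apply one_notMem p D
  have h1 := (t1 p r D).mul_mem_left (algebraMap L (BQ p r D) c⁻¹) h
  rw [← map_mul, inv_mul_cancel₀ hc, map_one] at h1
  unfold t1 at h1
  rw [Ideal.mem_comap, map_one] at h1
  exact h1

theorem map_t1 [Fact p.Prime] {L M : Type} [Field L] [Field M] (f : L →+* M) (D : L) (D' : M)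
    (h : f D = D') : (t1 p r D).map (bc p r f D D' h) = t1 p r D' := by
  have hle : (t1 p r D).map (bc p r f D D' h) ≤ t1 p r D' := by
    rw [Ideal.map_le_iff_le_comap]
    intro z hz
    rw [Ideal.mem_comap]
    unfold t1 at hz ⊢
    rw [Ideal.mem_comap, Ideal.mem_span_singleton] at hz ⊢
    obtain ⟨w, hw⟩ := hz
    refine ⟨bF p f D D' h w, ?_⟩
    change bF p f D D' h (z : RF p D) = _
    have hw' : (z : RF p D) = XF p D * w := hw
    rw [hw', map_mul, bF_XF]
  have key : ∀ (z : RF p D') (hz : z ∈ BQ p r D'), ∃ c : M,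
      (⟨z, hz⟩ : BQ p r D') - algebraMap M (BQ p r D') c ∈ (t1 p r D).map (bc p r f D D' h) := by
    intro z hz
    have hz' : z ∈ Algebra.adjoin M (mons p r D') := hz
    induction hz' using Algebra.adjoin_induction with
    | mem x hx =>
      obtain ⟨a, b, hab, rfl⟩ := hx
      have hm : ∀ (a b : ℕ) (hab : b ≡ r * a [MOD p]), a ≠ 0 →
          (⟨XF p D' ^ a * YF p D' ^ b, mons_mem p r D' hab⟩ : BQ p r D') ∈ (t1 p r D).map (bc p r f D D' h) := by
        intro a b hab ha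
        rw [← bc_mon p r f D D' h a b hab]
        exact Ideal.mem_map_of_mem _ (mon_mem_t1 p r D a b hab ha)
      by_cases ha : a = 0
      · subst ha
        have hb : p ∣ b := by
          rw [mul_zero] at hab
          exact (Nat.modEq_zero_iff_dvd).1 hab
        obtain ⟨k, rfl⟩ := hb
        have hu : uu p r D' ∈ (t1 p r D).map (bc p r f D D' h) := by
          have h1 := hm p 0 (by
            change 0 % p = (r * p) % p
            rw [Nat.zero_mod, Nat.mul_mod_left]) (Fact.out (p := p.Prime)).ne_zero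
          have h2 : (⟨XF p D' ^ p * YF p D' ^ 0, mons_mem p r D' (by
            change 0 % p = (r * p) % p
            rw [Nat.zero_mod, Nat.mul_mod_left])⟩ : BQ p r D') = uu p r D' := Subtype.ext (by
              change XF p D' ^ p * YF p D' ^ 0 = XF p D' ^ p
              rw [pow_zero, mul_one])
          rw [← h2]
          exact h1
        refine ⟨D' ^ k, ?_⟩
        have h3 : (⟨XF p D' ^ 0 * YF p D' ^ (p * k), hz⟩ : BQ p r D') = ww p r D' ^ k := Subtype.ext (by
          change XF p D' ^ 0 * YF p D' ^ (p * k) = (YF p D' ^ p) ^ k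
          rw [pow_zero, one_mul, pow_mul])
        have h4 : ww p r D' = algebraMap M (BQ p r D') D' - uu p r D' := by
          rw [← uu_add_ww]
          ring
        rw [h3, map_pow, ← Ideal.Quotient.eq_zero_iff_mem, map_sub, map_pow, map_pow, h4, map_sub,
          Ideal.Quotient.eq_zero_iff_mem.2 hu, sub_zero, sub_self]
      · refine ⟨0, ?_⟩
        rw [map_zero, sub_zero]
        exact hm a b hab ha
    | algebraMap c =>
      refine ⟨c, ?_⟩
      have h1 : (⟨algebraMap M (RF p D') c, hz⟩ : BQ p r D') - algebraMap M (BQ p r D') c = 0 :=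
        sub_eq_zero.2 (Subtype.ext rfl)
      rw [h1]
      exact Ideal.zero_mem _
    | add x y hx hy ihx ihy =>
      obtain ⟨c, hc⟩ := ihx hx
      obtain ⟨d, hd⟩ := ihy hy
      refine ⟨c + d, ?_⟩
      have h1 : (⟨x + y, hz⟩ : BQ p r D') - algebraMap M (BQ p r D') (c + d) =
          ((⟨x, hx⟩ : BQ p r D') - algebraMap M (BQ p r D') c) + ((⟨y, hy⟩ : BQ p r D') - algebraMap M (BQ p r D') d) := by
        have h2 : (⟨x + y, hz⟩ : BQ p r D') = ⟨x, hx⟩ + ⟨y, hy⟩ := rfl
        rw [h2, map_add]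
        ring
      rw [h1]
      exact Ideal.add_mem _ hc hd
    | mul x y hx hy ihx ihy =>
      obtain ⟨c, hc⟩ := ihx hx
      obtain ⟨d, hd⟩ := ihy hy
      refine ⟨c * d, ?_⟩
      have h1 : (⟨x * y, hz⟩ : BQ p r D') - algebraMap M (BQ p r D') (c * d) =
          (⟨x, hx⟩ : BQ p r D') * ((⟨y, hy⟩ : BQ p r D') - algebraMap M (BQ p r D') d) +
          algebraMap M (BQ p r D') d * ((⟨x, hx⟩ : BQ p r D') - algebraMap M (BQ p r D') c) := by
        have h2 : (⟨x * y, hz⟩ : BQ p r D') = ⟨x, hx⟩ * ⟨y, hy⟩ := rfl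
        rw [h2, map_mul]
        ring
      rw [h1]
      exact Ideal.add_mem _ (Ideal.mul_mem_left _ _ hd) (Ideal.mul_mem_left _ _ hc)
  refine le_antisymm hle fun z hz => ?_
  obtain ⟨c, hc⟩ := key z.1 z.2
  have h1 : algebraMap M (BQ p r D') c ∈ t1 p r D' := by
    have h2 := Ideal.sub_mem _ hz (hle hc)
    have h3 : z - ((⟨z.1, z.2⟩ : BQ p r D') - algebraMap M (BQ p r D') c) = algebraMap M (BQ p r D') c := by
      change z - (z - _) = _
      ring
    rwa [h3] at h2
  have h4 := const_mem_t1 p r D' c h1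
  rw [h4, map_zero, sub_zero] at hc
  exact hc

theorem sg_t1_le {L : Type} [Field L] (D z : L) (hz : z ^ p = 1) :
    (t1 p r D).map (sg p r D z hz) ≤ t1 p r D := by
  rw [Ideal.map_le_iff_le_comap]
  intro x hx
  rw [Ideal.mem_comap]
  unfold t1 at hx ⊢
  rw [Ideal.mem_comap, Ideal.mem_span_singleton] at hx ⊢
  obtain ⟨w, hw⟩ := hx
  refine ⟨sF p D z hz w, ?_⟩
  change sF p D z hz (x : RF p D) = _
  have hw' : (x : RF p D) = XF p D * w := hw
  rw [hw', map_mul, sF_XF]

theorem sg_t1 [Fact p.Prime] {L : Type} [Field L] (D z : L) (hz : z ^ p = 1) :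
    (t1 p r D).map (sg p r D z hz) = t1 p r D := by
  refine le_antisymm (sg_t1_le p r D z hz) ?_
  have hp := (Fact.out (p := p.Prime)).ne_zero
  have hz0 : z ≠ 0 := by
    rintro rfl
    rw [zero_pow hp] at hz
    exact zero_ne_one hz
  have hi : z⁻¹ ^ p = 1 := by rw [inv_pow, hz, inv_one]
  have h1 : ((t1 p r D).map (sg p r D z⁻¹ hi)).map (sg p r D z hz) = t1 p r D := by
    rw [Ideal.map_map]
    have h2 : (sg p r D z hz).comp (sg p r D z⁻¹ hi) = RingHom.id _ := by
      refine RingHom.ext fun x => Subtype.ext ?_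
      rw [RingHom.comp_apply, sg_val, sg_val, sF_sF p D z z⁻¹ hz hi (inv_mul_cancel₀ hz0)]
      rfl
    rw [h2, Ideal.map_id]
  calc t1 p r D = ((t1 p r D).map (sg p r D z⁻¹ hi)).map (sg p r D z hz) := h1.symm
    _ ≤ (t1 p r D).map (sg p r D z hz) := Ideal.map_mono (sg_t1_le p r D z⁻¹ hi)

/-- **Job FUN.** -/
theorem fun_ : S_DIC → S_FUN := by
  intro hdic p r _ _ F _ _ D hD L M N _ _ _ _ _ _ φ ψ
  obtain ⟨hL1, hL2, hL3, hL4, hL5, hL6, hL7, hL8⟩ := hdic p r F D hD L
  obtain ⟨hM1, hM2, hM3, hM4, hM5, hM6, hM7, hM8⟩ := hdic p r F D hD M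
  obtain ⟨hN1, hN2, hN3, hN4, hN5, hN6, hN7, hN8⟩ := hdic p r F D hD N
  have sim : ∀ {B : Type} [CommRing B] [Nontrivial B] (I : Ideal B), Sim I I := by
    intro B _ _ I
    exact ⟨1, 1, one_ne_zero, one_ne_zero, rfl⟩
  have uL : ∀ (P Q : Jp p r D L) (I J : Ideal (BQ p r (algebraMap F L D))), IsCls p r D P I →
      IsCls p r D Q J → I = J → P = Q := by
    rintro P Q I _ h h' rfl
    exact ((hL4 P Q I I h h').1).2 (sim _)
  have uM : ∀ (P Q : Jp p r D M) (I J : Ideal (BQ p r (algebraMap F M D))), IsCls p r D P I →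
      IsCls p r D Q J → I = J → P = Q := by
    rintro P Q I _ h h' rfl
    exact ((hM4 P Q I I h h').1).2 (sim _)
  have uN : ∀ (P Q : Jp p r D N) (I J : Ideal (BQ p r (algebraMap F N D))), IsCls p r D P I →
      IsCls p r D Q J → I = J → P = Q := by
    rintro P Q I _ h h' rfl
    exact ((hN4 P Q I I h h').1).2 (sim _)
  refine ⟨fun P => ?_, fun P => ?_, ?_, fun ζ h => ⟨?_, fun P => ?_⟩⟩
  · obtain ⟨I, hI⟩ := hL1 P
    refine uL _ _ _ _ (hL8 L (AlgHom.id F L) P I hI) hI ?_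
    refine (congrArg (fun f => Ideal.map f I) (bc_id p r _ (fun x => rfl) _ _)).trans ?_
    exact Ideal.map_id I
  · obtain ⟨I, hI⟩ := hL1 P
    refine uN _ _ _ _ (hL8 N (ψ.comp φ) P I hI) (hM8 N ψ _ _ (hL8 M φ P I hI)) ?_
    refine Eq.symm ((Ideal.map_map _ _).trans ?_)
    exact congrArg (fun f => Ideal.map f I) (bc_comp p r _ _ _ (fun x => rfl) _ _ _ _ _ _)
  · exact uM _ _ _ _ (hL8 M φ _ _ hL6) hM6 (map_t1 p r _ _ _ _)
  · have hz : (algebraMap F L ζ) ^ p = 1 := by rw [← map_pow, h, map_one]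
    exact uL _ _ _ _ (hL7 ζ h hz _ _ hL6) hL6 (sg_t1 p r _ _ hz)
  · obtain ⟨I, hI⟩ := hL1 P
    have hz : (algebraMap F L ζ) ^ p = 1 := by rw [← map_pow, h, map_one]
    have hz' : (algebraMap F M ζ) ^ p = 1 := by rw [← map_pow, h, map_one]
    refine uM _ _ _ _ (hL8 M φ _ _ (hL7 ζ h hz P I hI)) (hM7 ζ h hz' _ _ (hL8 M φ P I hI)) ?_
    exact bc_sg p r _ _ _ _ _ _ (φ.commutes ζ) hz hz' I

end Pool.Agent.Q285.CFFUN
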