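import Pool.Agent.Q7.CF.Stm3
import Pool.Agent.Q154.CJ.DIC

/-!
# Project CF of helper7: job DIC (adapted from the CJ proof of helper154)
-/

set_option autoImplicit false

namespace Pool.Agent.Q285.CFDIC

open Polynomial NumberField IsDedekindDomain Pool.Agent.Q7.CF
open Pool.Agent.Q154.CJDIC (isClass_ne_bot isClass_mul isClass_one isClass_cmap isClass_iff exists_isClass exists_class eq_iff)
open scoped nonZeroDivisors

theorem XF_ne_zero (p : ℕ) [Fact p.Prime] {L : Type} [Field L] (D : L) : XF p D ≠ 0 := by
  unfold XF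
  intro h
  have h1 : (X : L[X]) = 0 := by
    have hinj : Function.Injective (AdjoinRoot.of (fF p D)) :=
      AdjoinRoot.of.injective_of_degree_ne_zero (by
        rw [degree_eq_natDegree (fF_monic p D).ne_zero, fF_natDegree]
        exact_mod_cast (Fact.out (p := p.Prime)).ne_zero)
    exact hinj (h.trans (map_zero _).symm)
  exact X_ne_zero h1

theorem XF_pow_ne_zero (p : ℕ) [Fact p.Prime] {L : Type} [Field L] (D : L) (n : ℕ) : XF p D ^ n ≠ 0 := by
  unfold XF
  intro h
  rw [← map_pow] at h
  have h1 : (X ^ n : L[X]) = 0 := by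
    have hinj : Function.Injective (AdjoinRoot.of (fF p D)) :=
      AdjoinRoot.of.injective_of_degree_ne_zero (by
        rw [degree_eq_natDegree (fF_monic p D).ne_zero, fF_natDegree]
        exact_mod_cast (Fact.out (p := p.Prime)).ne_zero)
    exact hinj (h.trans (map_zero _).symm)
  exact pow_ne_zero n X_ne_zero h1

theorem uu_mem_t1 (p r : ℕ) [Fact p.Prime] {L : Type} [Field L] (D : L) : uu p r D ∈ t1 p r D := by
  unfold t1
  rw [Ideal.mem_comap, Ideal.mem_span_singleton]
  exact dvd_pow_self (XF p D) (Fact.out (p := p.Prime)).ne_zero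

theorem t1_ne_bot (p r : ℕ) [Fact p.Prime] {L : Type} [Field L] (D : L) : t1 p r D ≠ ⊥ := by
  intro h
  have h1 : uu p r D ∈ t1 p r D := uu_mem_t1 p r D
  rw [h, Ideal.mem_bot] at h1
  exact XF_pow_ne_zero p D p (congrArg (fun z : BQ p r D => (z : RF p D)) h1)

/-- **Job DIC.** -/
theorem dic : S_DED → S_BC → S_DIC := by
  intro hded _ p r _ _ F _ _ D hD L _ _
  have hc : ∀ (M : Type) [Field M] [Algebra F M], CharZero M := fun M _ _ =>
    charZero_of_injective_algebraMap (algebraMap F M).injective
  have := hc L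
  have hDL : algebraMap F L D ≠ 0 := (_root_.map_ne_zero _).2 hD
  have : IsDedekindDomain (BQ p r (algebraMap F L D)) := (hded p r L _ hDL).1
  refine ⟨fun P => exists_isClass (R := BQ p r (algebraMap F L D)) P,
    fun I hI => exists_class (R := BQ p r (algebraMap F L D)) hI,
    fun P I h => isClass_ne_bot (R := BQ p r (algebraMap F L D)) h,
    fun P Q I J h h' => ⟨eq_iff (R := BQ p r (algebraMap F L D)) h h',
      isClass_mul (R := BQ p r (algebraMap F L D)) h h'⟩,
    isClass_one (R := BQ p r (algebraMap F L D)), ?_, ?_, ?_⟩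
  · unfold tT
    have h : ∃ P : Jp p r D L, IsCls p r D P (t1 p r (algebraMap F L D)) :=
      exists_class (R := BQ p r (algebraMap F L D)) (t1_ne_bot p r _)
    rw [dif_pos h]
    exact h.choose_spec
  · intro ζ h h' P I hP
    exact isClass_cmap (R := BQ p r (algebraMap F L D)) _ (sg_injective p r (algebraMap F L D) (algebraMap F L ζ) h') hP
  · intro M _ _ φ P I hP
    exact isClass_cmap (R := BQ p r (algebraMap F L D)) _ (bc_injective p r _ _ _ _) hP

end Pool.Agent.Q285.CFDIC
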