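import Pool.Agent.Q7.CF.Stm

/-!
# Project CF of helper7: job FIN

`S_FIN`: if `p A = p² A` for the class group `A` of the coordinate ring of the twisted Fermat curve and `A` is finitely generated, then `A` is finite.
-/

set_option autoImplicit false

namespace Pool.Agent.Q7.CF.FINp

open Polynomial NumberField
open scoped nonZeroDivisors

/-- a finitely generated commutative group in which every `p`-th power is a `p²`-th power is finite -/
theorem finite_of_pow {A : Type*} [CommGroup A] (p : ℕ) (hp : 2 ≤ p)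
    (h : ∀ a : A, ∃ b : A, a ^ p = b ^ (p ^ 2)) (hfg : Group.FG A) : Finite A := by
  haveI := hfg
  haveI h0 : AddGroup.FG (Additive A) := AddGroup.fg_iff_mul_fg.2 hfg
  haveI h1 : Module.Finite ℤ (Additive A) := Module.Finite.iff_addGroup_fg.2 h0
  -- `N = p A`
  let f : Additive A →ₗ[ℤ] Additive A := LinearMap.lsmul ℤ (Additive A) (p : ℤ)
  have hN : (LinearMap.range f).FG := Submodule.FG.of_finite
  have hle : LinearMap.range f ≤ Ideal.span {(p : ℤ)} • LinearMap.range f := by
    rintro _ ⟨a, rfl⟩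
    obtain ⟨b, hb⟩ := h (Additive.toMul a)
    have h2 : f a = (p : ℤ) • f (Additive.ofMul b) := by
      change (p : ℤ) • a = (p : ℤ) • ((p : ℤ) • (Additive.ofMul b))
      rw [natCast_zsmul, natCast_zsmul, natCast_zsmul, smul_smul]
      apply Additive.toMul.injective
      rw [toMul_nsmul, toMul_nsmul, toMul_ofMul, hb, pow_two]
    rw [h2]
    exact Submodule.smul_mem_smul (Ideal.mem_span_singleton_self _) ⟨_, rfl⟩
  obtain ⟨r, hr, hr0⟩ := Submodule.exists_sub_one_mem_and_smul_eq_zero_of_fg_of_le_smul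
    (Ideal.span {(p : ℤ)}) (LinearMap.range f) hN hle
  have hrne : r ≠ 0 := by
    rintro rfl
    rw [Ideal.mem_span_singleton] at hr
    have h3 : (p : ℤ) ∣ 1 := by
      have := (dvd_neg (a := (p : ℤ))).2 hr
      simpa using this
    have h4 : p ∣ 1 := by exact_mod_cast h3
    have := Nat.le_of_dvd one_pos h4
    omega
  have htor : Monoid.IsTorsion A := by
    intro a
    rw [isOfFinOrder_iff_zpow_eq_one]
    refine ⟨r * p, mul_ne_zero hrne (by exact_mod_cast (by omega : p ≠ 0)), ?_⟩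
    have h5 := hr0 (f (Additive.ofMul a)) ⟨_, rfl⟩
    change r • ((p : ℤ) • (Additive.ofMul a)) = 0 at h5
    rw [smul_smul] at h5
    have h6 := congrArg Additive.toMul h5
    rw [toMul_zsmul, toMul_ofMul, toMul_zero] at h6
    exact h6
  exact CommGroup.finite_of_fg_torsion A htor

/-- **Job FIN.** -/
theorem fin : S_DED → S_FIN := by
  intro hD p _ hp2 F _ _ D hD0
  have hp : p.Prime := Fact.out
  haveI : Ok p 1 := ⟨le_rfl, by
    have := hp.two_le
    omega⟩
  obtain ⟨-, -, hR, -⟩ := hD p 1 F D hD0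
  haveI := hR
  refine ⟨hR, fun ht => ?_⟩
  have key : ∀ a : ClassGroup (RF p D), ∃ b : ClassGroup (RF p D), a ^ p = b ^ (p ^ 2) := by
    intro a
    obtain ⟨⟨I, hI⟩, rfl⟩ := ClassGroup.mk0_surjective a
    have hI0 : I ≠ ⊥ := nonZeroDivisors.ne_zero hI
    obtain ⟨J, hJ0, x, y, hx, hy, h⟩ := ht I hI0
    refine ⟨ClassGroup.mk0 ⟨J, mem_nonZeroDivisors_of_ne_zero hJ0⟩, ?_⟩
    rw [← map_pow, ← map_pow, ClassGroup.mk0_eq_mk0_iff]
    exact ⟨x, y, hx, hy, h⟩
  exact ⟨key, finite_of_pow p hp.two_le key⟩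

end Pool.Agent.Q7.CF.FINp
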