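import Pool.Agent.Q7.CF.Stm3
import Pool.Agent.Q285.CF.FUN
import Pool.Agent.Q129.CJ.LIM

/-!
# Project CF of helper7: extension of ideals of `BQ` to a larger field of constants is injective (adapted from the CJ proof of helper129)
-/

set_option autoImplicit false

namespace Pool.Agent.Q285.CFRet

open Polynomial
open Pool.Agent.Q7.CF
open Pool.Agent.Q129.CJ (CoH CoH_mul CoH_one exists_ret coeff_CoH)

section RF

variable {p : ℕ} [Fact p.Prime]

omit [Fact p.Prime] in
theorem fF_map {L M : Type} [Field L] [Field M] (φ : L →+* M) (D : L) (D' : M) (h : φ D = D') :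
    (fF p D).map (mapRingHom φ) = fF p D' := by
  unfold fF
  rw [Polynomial.map_sub, Polynomial.map_pow, map_X, map_C]
  simp only [coe_mapRingHom, Polynomial.map_sub, Polynomial.map_pow, map_X, map_C, h]

omit [Fact p.Prime] in
theorem bF_mk {L M : Type} [Field L] [Field M] (φ : L →+* M) (D : L) (D' : M) (h : φ D = D') (g : L[X][X]) :
    bF p φ D D' h (AdjoinRoot.mk (fF p D) g) = AdjoinRoot.mk (fF p D') (g.map (mapRingHom φ)) := by
  have h3 : (bF p φ D D' h).comp (AdjoinRoot.mk (fF p D)) =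
      (AdjoinRoot.mk (fF p D')).comp (mapRingHom (mapRingHom φ)) := by
    refine Polynomial.ringHom_ext (fun a => ?_) ?_
    · simp only [RingHom.comp_apply, AdjoinRoot.mk_C, coe_mapRingHom, map_C]
      exact bF_of p φ D D' h a
    · simp only [RingHom.comp_apply, AdjoinRoot.mk_X, coe_mapRingHom, map_X]
      exact bF_YF p φ D D' h
  exact RingHom.congr_fun h3 g

omit [Fact p.Prime] in
/-- a retraction of the extension of the field of constants -/
theorem exists_rho {L M : Type} [Field L] [Field M] (φ : L →+* M) (D : L) (D' : M) (h : φ D = D') :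
    ∃ ρ : RF p D' →+ RF p D, (∀ (b : RF p D) (w : RF p D'), ρ (bF p φ D D' h b * w) = b * ρ w) ∧
      (∀ c : M, ∃ a : L, ρ (algebraMap M (RF p D') c) = algebraMap L (RF p D) a) ∧ ρ 1 = 1 := by
  obtain ⟨π, hπ, hπ1⟩ := exists_ret φ
  have hP1 : ∀ a b, CoH π (mapRingHom φ a * b) = a * CoH π b := CoH_mul φ π hπ
  have hP : ∀ (f : L[X][X]) (g : M[X][X]), CoH (CoH π) (f.map (mapRingHom φ) * g) = f * CoH (CoH π) g :=
    CoH_mul (mapRingHom φ) (CoH π) hP1
  have hff := fF_map (p := p) φ D D' h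
  have h0 : ∀ g : M[X][X], AdjoinRoot.mk (fF p D') g = 0 → AdjoinRoot.mk (fF p D) (CoH (CoH π) g) = 0 := by
    intro g hg
    rw [AdjoinRoot.mk_eq_zero] at hg
    obtain ⟨k, hk⟩ := hg
    rw [hk, ← hff, hP, AdjoinRoot.mk_eq_zero]
    exact dvd_mul_right _ _
  choose s hs using AdjoinRoot.mk_surjective (g := fF p D')
  have hr : ∀ g : M[X][X], AdjoinRoot.mk (fF p D) (CoH (CoH π) (s (AdjoinRoot.mk (fF p D') g))) =
      AdjoinRoot.mk (fF p D) (CoH (CoH π) g) := by
    intro g
    rw [← sub_eq_zero, ← map_sub, ← map_sub]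
    refine h0 _ ?_
    rw [map_sub, hs, sub_self]
  let ρ : RF p D' →+ RF p D := AddMonoidHom.mk' (fun z => AdjoinRoot.mk (fF p D) (CoH (CoH π) (s z))) (by
    intro a b
    have h1 := hr (s a + s b)
    rw [map_add (AdjoinRoot.mk (fF p D')), hs, hs, map_add (CoH (CoH π)), map_add] at h1
    exact h1)
  have hρ : ∀ g : M[X][X], ρ (AdjoinRoot.mk (fF p D') g) = AdjoinRoot.mk (fF p D) (CoH (CoH π) g) := hr
  refine ⟨ρ, fun b w => ?_, fun c => ?_, ?_⟩
  · obtain ⟨f, rfl⟩ := AdjoinRoot.mk_surjective b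
    obtain ⟨g, rfl⟩ := AdjoinRoot.mk_surjective w
    rw [bF_mk, ← map_mul, hρ, hρ, hP, map_mul]
  · refine ⟨π c, ?_⟩
    have h1 : algebraMap M (RF p D') c = AdjoinRoot.mk (fF p D') (C (C c)) := rfl
    rw [h1, hρ]
    have h2 : CoH (CoH π) (C (C c)) = C (C (π c)) := by
      ext n m
      rw [coeff_CoH, coeff_C, coeff_C]
      split_ifs with h3
      · rw [coeff_CoH, coeff_C, coeff_C]
        split_ifs with h4
        · rfl
        · exact map_zero _
      · rw [map_zero]
    rw [h2]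
    rfl
  · have h1 := hρ 1
    rw [CoH_one (CoH π) (CoH_one π hπ1), map_one (AdjoinRoot.mk (fF p D'))] at h1
    exact h1.trans (map_one (AdjoinRoot.mk (fF p D)))

end RF

section BQ

variable (p r : ℕ)

/-- `BQ` is spanned by the monomials -/
theorem mem_span {L : Type} [Field L] (D : L) (z : RF p D) (hz : z ∈ BQ p r D) :
    z ∈ Submodule.span L (mons p r D) := by
  let S : Submonoid (RF p D) :=
    { carrier := mons p r D
      one_mem' := ⟨0, 0, by rw [mul_zero], by rw [pow_zero, pow_zero, mul_one]⟩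
      mul_mem' := by
        rintro _ _ ⟨a, b, hab, rfl⟩ ⟨c, d, hcd, rfl⟩
        refine ⟨a + c, b + d, ?_, by ring⟩
        rw [mul_add]
        exact hab.add hcd }
  have h1 : Submonoid.closure (mons p r D) = S := S.closure_eq
  have h2 : z ∈ Subalgebra.toSubmodule (Algebra.adjoin L (mons p r D)) := hz
  rw [Algebra.adjoin_eq_span, h1] at h2
  exact h2

theorem mem_BQ_of_span {L : Type} [Field L] (D : L) (z : RF p D) (hz : z ∈ Submodule.span L (mons p r D)) :
    z ∈ BQ p r D := by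
  have h1 : Submodule.span L (mons p r D) ≤ Subalgebra.toSubmodule (BQ p r D) :=
    Submodule.span_le.2 Algebra.subset_adjoin
  exact h1 hz

variable {p r}

theorem rho_mem {L M : Type} [Field L] [Field M] (φ : L →+* M) (D : L) (D' : M) (h : φ D = D')
    (ρ : RF p D' →+ RF p D) (h1 : ∀ (b : RF p D) (w : RF p D'), ρ (bF p φ D D' h b * w) = b * ρ w)
    (h2 : ∀ c : M, ∃ a : L, ρ (algebraMap M (RF p D') c) = algebraMap L (RF p D) a)
    (w : RF p D') (hw : w ∈ BQ p r D') : ρ w ∈ BQ p r D := by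
  have key : ∀ w ∈ Submodule.span M (mons p r D'), ∀ c : M, ρ (algebraMap M (RF p D') c * w) ∈ BQ p r D := by
    intro w hw
    induction hw using Submodule.span_induction with
    | mem x hx =>
      obtain ⟨a, b, hab, rfl⟩ := hx
      intro c
      have h3 : algebraMap M (RF p D') c * (XF p D' ^ a * YF p D' ^ b) =
          bF p φ D D' h (XF p D ^ a * YF p D ^ b) * algebraMap M (RF p D') c := by
        rw [map_mul, map_pow, map_pow, bF_XF, bF_YF]
        ring
      obtain ⟨d, hd⟩ := h2 c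
      rw [h3, h1, hd]
      exact (BQ p r D).mul_mem (mons_mem p r D hab) ((BQ p r D).algebraMap_mem d)
    | zero =>
      intro c
      rw [mul_zero, map_zero]
      exact (BQ p r D).zero_mem
    | add x y _ _ hx hy =>
      intro c
      rw [mul_add, map_add]
      exact (BQ p r D).add_mem (hx c) (hy c)
    | smul a x _ hx =>
      intro c
      have h3 : algebraMap M (RF p D') c * (a • x) = algebraMap M (RF p D') (c * a) * x := by
        rw [Algebra.smul_def, map_mul]
        ring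
      rw [h3]
      exact hx _
  have h4 := key w (mem_span p r D' w hw) 1
  rwa [map_one, one_mul] at h4

theorem mem_of_map {L M : Type} [Field L] [Field M] (φ : L →+* M) (D : L) (D' : M) (h : φ D = D')
    (I : Ideal (BQ p r D)) (b : BQ p r D) (hb : bc p r φ D D' h b ∈ I.map (bc p r φ D D' h)) : b ∈ I := by
  obtain ⟨ρ, h1, h2, h3⟩ := exists_rho (p := p) φ D D' h
  have key : ∀ z ∈ I.map (bc p r φ D D' h), ∀ w : BQ p r D', ∃ y ∈ I, (y : RF p D) = ρ ((w : RF p D') * (z : RF p D')) := by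
    intro z hz
    unfold Ideal.map at hz
    induction hz using Submodule.span_induction with
    | mem x hx =>
      obtain ⟨i, hi, rfl⟩ := hx
      intro w
      refine ⟨i * ⟨ρ w, rho_mem φ D D' h ρ h1 h2 w w.2⟩, I.mul_mem_right _ hi, ?_⟩
      rw [mul_comm (w : RF p D'), bc_val, h1]
      rfl
    | zero =>
      intro w
      refine ⟨0, I.zero_mem, ?_⟩
      have e : ((0 : BQ p r D') : RF p D') = 0 := rfl
      rw [e, mul_zero, map_zero]
      rfl
    | add x y _ _ hx hy =>
      intro w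
      obtain ⟨a, ha, ha'⟩ := hx w
      obtain ⟨b, hb, hb'⟩ := hy w
      refine ⟨a + b, I.add_mem ha hb, ?_⟩
      have e : ((x + y : BQ p r D') : RF p D') = (x : RF p D') + (y : RF p D') := rfl
      rw [e, mul_add, map_add, ← ha', ← hb']
      rfl
    | smul a x _ hx =>
      intro w
      obtain ⟨y, hy, hy'⟩ := hx (w * a)
      refine ⟨y, hy, ?_⟩
      have e : ((w * a : BQ p r D') : RF p D') = (w : RF p D') * (a : RF p D') := rfl
      have e' : ((a • x : BQ p r D') : RF p D') = (a : RF p D') * (x : RF p D') := rfl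
      rw [hy', e, e', mul_assoc]
  obtain ⟨y, hy, hy'⟩ := key _ hb 1
  have e : ((1 : BQ p r D') : RF p D') = 1 := rfl
  rw [e, one_mul, bc_val] at hy'
  have h4 := h1 (b : RF p D) 1
  rw [mul_one, h3, mul_one] at h4
  rw [h4] at hy'
  have h5 : y = b := Subtype.ext hy'
  rwa [← h5]

/-- the extension of ideals is injective -/
theorem map_inj {L M : Type} [Field L] [Field M] (φ : L →+* M) (D : L) (D' : M) (h : φ D = D')
    (I I' : Ideal (BQ p r D)) (hI : I.map (bc p r φ D D' h) = I'.map (bc p r φ D D' h)) : I = I' := by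
  apply le_antisymm
  · intro b hb
    apply mem_of_map φ D D' h
    rw [← hI]
    exact Ideal.mem_map_of_mem _ hb
  · intro b hb
    apply mem_of_map φ D D' h
    rw [hI]
    exact Ideal.mem_map_of_mem _ hb

/-- every element is defined over a finitely generated field -/
theorem level {M : Type} [Field M] (D' : M) (b : BQ p r D') : ∃ T : Finset M, ∀ (E : Type) [Field E] (φ : E →+* M)
    (D₀ : E) (h : φ D₀ = D'), (∀ t ∈ T, t ∈ φ.range) → b ∈ (bc p r φ D₀ D' h).range := by
  classical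
  have key : ∀ z ∈ Submodule.span M (mons p r D'), ∃ T : Finset M, ∀ (E : Type) [Field E] (φ : E →+* M)
      (D₀ : E) (h : φ D₀ = D'), (∀ t ∈ T, t ∈ φ.range) → ∃ z₀ : BQ p r D₀, bF p φ D₀ D' h z₀ = z := by
    intro z hz
    induction hz using Submodule.span_induction with
    | mem x hx =>
      obtain ⟨a, b, hab, rfl⟩ := hx
      refine ⟨∅, fun E _ φ D₀ h _ => ⟨⟨XF p D₀ ^ a * YF p D₀ ^ b, mons_mem p r D₀ hab⟩, ?_⟩⟩
      change bF p φ D₀ D' h (XF p D₀ ^ a * YF p D₀ ^ b) = _
      rw [map_mul, map_pow, map_pow, bF_XF, bF_YF]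
    | zero => exact ⟨∅, fun E _ φ D₀ h _ => ⟨0, map_zero _⟩⟩
    | add x y _ _ hx hy =>
      obtain ⟨T, hT⟩ := hx
      obtain ⟨T', hT'⟩ := hy
      refine ⟨T ∪ T', fun E _ φ D₀ h ht => ?_⟩
      obtain ⟨z₀, hz₀⟩ := hT E φ D₀ h fun t hh => ht t (Finset.mem_union_left _ hh)
      obtain ⟨z₁, hz₁⟩ := hT' E φ D₀ h fun t hh => ht t (Finset.mem_union_right _ hh)
      refine ⟨z₀ + z₁, ?_⟩
      rw [← hz₀, ← hz₁, ← map_add]
      rfl
    | smul c x _ hx =>
      obtain ⟨T, hT⟩ := hx
      refine ⟨insert c T, fun E _ φ D₀ h ht => ?_⟩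
      obtain ⟨z₀, hz₀⟩ := hT E φ D₀ h fun t hh => ht t (Finset.mem_insert_of_mem hh)
      obtain ⟨c₀, hc₀⟩ := ht c (Finset.mem_insert_self c T)
      refine ⟨algebraMap E (BQ p r D₀) c₀ * z₀, ?_⟩
      have e : ((algebraMap E (BQ p r D₀) c₀ * z₀ : BQ p r D₀) : RF p D₀) =
        algebraMap E (RF p D₀) c₀ * (z₀ : RF p D₀) := rfl
      rw [e, map_mul, bF_alg, hz₀, hc₀, Algebra.smul_def]
  obtain ⟨T, hT⟩ := key b.1 (mem_span p r D' b.1 b.2)
  refine ⟨T, fun E _ φ D₀ h ht => ?_⟩
  obtain ⟨z₀, hz₀⟩ := hT E φ D₀ h ht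
  exact ⟨z₀, Subtype.ext hz₀⟩

end BQ

end Pool.Agent.Q285.CFRet
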