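import Pool.Agent.Q7.CF.Stm3
import Pool.Agent.Q285.CF.Ret

/-!
# Project CF of helper7, job LIM: descent from the algebraic closure (adapted from the CJ proof of helper129)
-/

set_option autoImplicit false

namespace Pool.Agent.Q285.CFLIM

open Polynomial
open Pool.Agent.Q7.CF
open Pool.Agent.Q129.CJ (exists_galois)
open Pool.Agent.Q285.CFRet (level map_inj)
open Pool.Agent.Q285.CFFUN (bc_comp)

theorem sim_map {A B : Type} [CommRing A] [CommRing B] {I J : Ideal A} (h : Sim I J) (f : A →+* B)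
    (hf : Function.Injective f) : Sim (I.map f) (J.map f) := by
  obtain ⟨a, b, ha, hb, hab⟩ := h
  refine ⟨f a, f b, fun h => ha (hf (h.trans (map_zero f).symm)), fun h => hb (hf (h.trans (map_zero f).symm)), ?_⟩
  have h1 := congrArg (Ideal.map f) hab
  rw [Ideal.map_mul, Ideal.map_mul, Ideal.map_span, Ideal.map_span, Set.image_singleton, Set.image_singleton] at h1
  exact h1

theorem lim : S_DED → S_BC → S_D5 → S_D6 → S_LIM := by
  intro hded _ hd5 hd6 p r _ _ L _ _ D hD M _ _ _ D' hD' J hJ hτ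
  subst hD'
  have : CharZero M := charZero_of_injective_algebraMap (algebraMap L M).injective
  have : IsGalois L M := ⟨⟩
  have hDM : algebraMap L M D ≠ 0 := by
    rw [Ne, map_eq_zero_iff _ (algebraMap L M).injective]
    exact hD
  have := (hded p r M (algebraMap L M D) hDM).1
  -- generators of `J`
  obtain ⟨S, hS⟩ : J.FG := (isNoetherianRing_iff_ideal_fg _).1 inferInstance J
  classical
  choose T hT using fun b => level (p := p) (r := r) (algebraMap L M D) b
  obtain ⟨E₀, hE₀⟩ := exists_galois (L := L) (S.biUnion T)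
  have h₀ : algebraMap E₀ M (algebraMap L E₀ D) = algebraMap L M D :=
    (IsScalarTower.algebraMap_apply L E₀ M D).symm
  set f₀ := bc p r (algebraMap E₀ M) (algebraMap L E₀ D) (algebraMap L M D) h₀ with hf₀
  have hf₀i : Function.Injective f₀ := bc_injective _ _ _ _ _ _
  set J₁ := J.comap f₀ with hJ₁
  have hJJ : J₁.map f₀ = J := by
    apply le_antisymm Ideal.map_comap_le
    have hS' : Ideal.span (S : Set (BQ p r (algebraMap L M D))) = J := hS
    rw [← hS', Ideal.span_le]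
    intro s hs
    have hs' : s ∈ f₀.range := by
      apply hT s
      intro t ht
      exact ⟨⟨t, hE₀ t (Finset.mem_biUnion.mpr ⟨s, by exact_mod_cast hs, ht⟩)⟩, rfl⟩
    obtain ⟨s', rfl⟩ := hs'
    apply Ideal.mem_map_of_mem
    rw [Ideal.mem_comap]
    exact Ideal.subset_span hs
  have hJ₁0 : J₁ ≠ ⊥ := by
    intro h
    rw [h, Ideal.map_bot] at hJJ
    exact hJ hJJ.symm
  have hDE : algebraMap L E₀ D ≠ 0 := by
    rw [Ne, map_eq_zero_iff _ (algebraMap L E₀).injective]
    exact hD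
  have key : ∀ τ₀ : E₀ ≃ₐ[L] E₀, Sim (J₁.map (ga p r D τ₀)) J₁ := by
    intro τ₀
    obtain ⟨a, b, ha, hb, hab⟩ := hτ (τ₀.liftNormal M) ((τ₀.liftNormal M).commutes D)
    obtain ⟨E₂, hE₂⟩ := exists_galois (L := L) (T a ∪ T b)
    set E₁ : FiniteGaloisIntermediateField L M := E₀ ⊔ E₂ with hE₁
    have hle : E₀.toIntermediateField ≤ E₁.toIntermediateField := le_sup_left
    have hle2 : E₂.toIntermediateField ≤ E₁.toIntermediateField := le_sup_right
    let i : E₀ →ₐ[L] E₁ := IntermediateField.inclusion hle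
    let _ : Algebra E₀ E₁ := i.toRingHom.toAlgebra
    have : IsScalarTower L E₀ E₁ := IsScalarTower.of_algebraMap_eq (fun x => (i.commutes x).symm)
    have : FiniteDimensional E₀ E₁ := Module.Finite.of_restrictScalars_finite L E₀ E₁
    have : IsGalois E₀ E₁ := IsGalois.tower_top_of_isGalois L E₀ E₁
    have : CharZero E₀ := charZero_of_injective_algebraMap (algebraMap L E₀).injective
    have hne : J₁.map (ga p r D τ₀) ≠ ⊥ := fun h =>
      hJ₁0 ((Ideal.map_eq_bot_iff_of_injective (bc_injective _ _ _ _ _ _)).1 h)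
    apply hd6 p r E₀ (algebraMap L E₀ D) hDE E₁ (J₁.map (ga p r D τ₀)) J₁ hne hJ₁0
    have h₁ : algebraMap E₁ M (algebraMap E₀ E₁ (algebraMap L E₀ D)) = algebraMap L M D := rfl
    set f₁ := bc p r (algebraMap E₁ M) (algebraMap E₀ E₁ (algebraMap L E₀ D)) (algebraMap L M D) h₁ with hf₁
    have hmem : ∀ c : BQ p r (algebraMap L M D), (∀ t ∈ T c, t ∈ E₂.toIntermediateField) → c ∈ f₁.range := by
      intro c hc
      apply hT c
      intro t ht
      exact ⟨⟨t, hle2 (hc t ht)⟩, rfl⟩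
    obtain ⟨a₁, rfl⟩ := hmem a fun t ht => hE₂ t (Finset.mem_union_left _ ht)
    obtain ⟨b₁, rfl⟩ := hmem b fun t ht => hE₂ t (Finset.mem_union_right _ ht)
    refine ⟨a₁, b₁, fun h => ha (by rw [h, map_zero]), fun h => hb (by rw [h, map_zero]),
      map_inj _ _ _ h₁ _ _ ?_⟩
    have t1 : f₁.comp (bc p r (algebraMap E₀ E₁) (algebraMap L E₀ D) _ rfl) = f₀ :=
      bc_comp p r _ _ _ (fun _ => rfl) _ _ _ _ _ _
    have hτ₀ : (((τ₀.liftNormal M : M ≃ₐ[L] M) : M →ₐ[L] M) : M →+* M) (algebraMap L M D) = algebraMap L M D :=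
      (τ₀.liftNormal M).commutes D
    have hk : ((((τ₀.liftNormal M : M ≃ₐ[L] M) : M →ₐ[L] M) : M →+* M).comp (algebraMap E₀ M)) (algebraMap L E₀ D) =
        algebraMap L M D := by
      rw [RingHom.comp_apply, h₀]
      exact hτ₀
    have t2 : f₀.comp (ga p r D τ₀) = (bc p r (((τ₀.liftNormal M : M ≃ₐ[L] M) : M →ₐ[L] M) : M →+* M) (algebraMap L M D)
        (algebraMap L M D) hτ₀).comp f₀ := by
      have e1 : f₀.comp (ga p r D τ₀) = bc p r ((((τ₀.liftNormal M : M ≃ₐ[L] M) : M →ₐ[L] M) : M →+* M).comp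
          (algebraMap E₀ M)) (algebraMap L E₀ D) (algebraMap L M D) hk :=
        bc_comp p r _ _ _ (fun x => AlgEquiv.liftNormal_commutes τ₀ M x) _ _ _ _ _ _
      have e2 : (bc p r (((τ₀.liftNormal M : M ≃ₐ[L] M) : M →ₐ[L] M) : M →+* M) (algebraMap L M D)
        (algebraMap L M D) hτ₀).comp f₀ = bc p r ((((τ₀.liftNormal M : M ≃ₐ[L] M) : M →ₐ[L] M) : M →+* M).comp
          (algebraMap E₀ M)) (algebraMap L E₀ D) (algebraMap L M D) hk :=
        bc_comp p r _ _ _ (fun x => rfl) _ _ _ _ _ _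
      rw [e1, e2]
    have e1 : (((J₁.map (ga p r D τ₀)).map (bc p r (algebraMap E₀ E₁) (algebraMap L E₀ D) _ rfl)).map f₁) =
        J.map (bc p r (((τ₀.liftNormal M : M ≃ₐ[L] M) : M →ₐ[L] M) : M →+* M) (algebraMap L M D) (algebraMap L M D)
          hτ₀) := by
      conv_rhs => rw [← hJJ]
      rw [Ideal.map_map (bc p r (algebraMap E₀ E₁) (algebraMap L E₀ D) _ rfl), t1, Ideal.map_map, t2, ← Ideal.map_map]
    have e2 : ((J₁.map (bc p r (algebraMap E₀ E₁) (algebraMap L E₀ D) _ rfl)).map f₁) = J := by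
      rw [Ideal.map_map, t1, hJJ]
    rw [Ideal.map_mul, Ideal.map_mul, Ideal.map_span, Ideal.map_span, Set.image_singleton, Set.image_singleton,
      ← hf₁, e1, e2]
    exact hab
  obtain ⟨J₀, hJ₀, hsim⟩ := hd5 p r L D hD E₀ J₁ hJ₁0 key
  refine ⟨J₀, hJ₀, ?_⟩
  have h2 := sim_map hsim f₀ hf₀i
  rw [hJJ, Ideal.map_map] at h2
  have e3 : f₀.comp (bc p r (algebraMap L E₀) D (algebraMap L E₀ D) rfl) =
      bc p r (algebraMap L M) D (algebraMap L M D) rfl :=
    bc_comp p r _ _ _ (fun x => IsScalarTower.algebraMap_apply L E₀ M x) _ _ _ _ _ _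
  rw [e3] at h2
  exact h2

end Pool.Agent.Q285.CFLIM
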